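import Mathlib
import Pool.Agent.Helper90.RC.Main
import Pool.Agent.Helper90.RC.Sanity

/-!
# Fair dynamically statistically secure protocols need a linear number of rounds, also against
non-rushing fail-stops

The definitions (protocols, mixed adversaries with non-rushing fail-stops, real and ideal
execution, security, the number `R rushing n`) are in `Pool.Agent.Helper90.RC.Defs`.

Proof idea. Let `f x` tell whether the sum of the inputs in `ZMod 3` is zero and let
`Det i V W` mean that the views of the parties in `V` before round `i` together with the messages
of the parties in `W` to them in round `i` of an undisturbed execution determine `f x` up to a
small error. Let `U` be a subset of `W` with one more element than `V`. The adversary corrupts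
`V` actively, follows the protocol before round `i` and is silent afterwards, all parties outside
of `V ∪ W` fail-stop at the start of round `i`, those of `W \ U` at the start of round `i + 1`.
By fairness the output of the parties of `U` is almost always right; it depends only on their
views before round `i` and the messages of `W \ U` in round `i`, hence `Det i U (W \ U)`.
Iterating this in one round and then going back one round, the size of the first set grows by
`O(√n)`-steps whose squares add up to `O(n)` per round, so that it stays below `n / 2` for about
`n / 8` rounds. But after the first round no minority can know the value.
-/

set_option autoImplicit false

namespace Pool.Agent.Results.MP_11b8f9_lc.LinearRounds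

open Pool.Agent.Helper90.RC

/-- For `n ≥ 2` parties the least number of rounds `R n` which suffices for fair dynamically
statistically secure protocols for all functions against an adversary with non-rushing fails is
at least `(n + 6) / 8`, so it grows linearly (with the known upper bound `O(n)` its order of growth
is exactly `n`). This holds with rushing active parties (the standard model,
`rushing = true`) and even if the active parties are not rushing (`rushing = false`). Already
the function `sumZero n` needs so many rounds. -/
theorem result (rushing : Bool) (n : ℕ) (hn : 2 ≤ n) :
    (n : ℕ∞) + 6 ≤ 8 * R rushing n ∧
      ∀ (d : Fin n → ZMod 3) (r : ℕ) (P : ℕ → Protocol n (ZMod 3) Bool),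
        FairSecure rushing (sumZero n) d r P → n + 6 ≤ 8 * r :=
  ⟨R_lower hn, fun _ _ _ hs => rounds_lower hn hs⟩

/-- The model is not vacuous: two parties need exactly one round, for every function. So the
bound is attained for `n = 2`. -/
theorem two_parties (rushing : Bool) : R rushing 2 = 1 := R_two rushing

end Pool.Agent.Results.MP_11b8f9_lc.LinearRounds
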